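import Pool.Agent.H.MP_11e589.D

namespace Pool.Agent.H.MP_a66ead

open Filter Topology Set

theorem rc {α : Type} [Nonempty α] (P : ℕ → (ℕ → α) → α → Prop) (h : ∀ r p, ∃ a, P r p a)
    (l : ∀ r p q a, (∀ i < r, p i = q i) → P r p a → P r q a) : ∃ s : ℕ → α, ∀ r, P r s (s r) := by
  choose c hc using h
  refine ⟨wellFounded_lt.fix fun r p => c r fun i => if h : i < r then p i h
    else Classical.arbitrary α, fun r => ?_⟩
  rw [WellFounded.fix_eq]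
  exact l _ _ _ _ (fun i h => dif_pos h) (hc _ _)

variable {V : Type} [NormedAddCommGroup V] [NormedSpace ℝ V]

theorem one (h : ¬ FiniteDimensional ℝ V) {r : ℕ} (A : Fin r → V) (B : Fin r → V →L[ℝ] ℝ) :
    ∃ p : V × (V →L[ℝ] ℝ), ‖p.1‖ ≤ 2 ∧ ‖p.2‖ ≤ 4 ∧ p.2 p.1 = 1 ∧
      ∀ i, p.2 (A i) = 0 ∧ B i p.1 = 0 := by
  obtain ⟨u, u1, u2⟩ := exists_seq_norm_le_one_le_norm_sub' (c := (3 / 2 : ℝ)) (by norm_num)
    (R := 2) (by norm_num) (E := LinearMap.ker (LinearMap.pi fun i => (B i).toLinearMap)) fun k =>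
      h ⟨Submodule.fg_of_fg_map_of_fg_inf_ker (LinearMap.pi fun i => (B i).toLinearMap)
        (IsNoetherian.noetherian _) (by simpa using Module.Finite.iff_fg.1 k)⟩
  obtain ⟨E, hE⟩ : ∃ E, E = Submodule.span ℝ (range A) := ⟨_, rfl⟩
  have : FiniteDimensional ℝ E := hE ▸ FiniteDimensional.span_of_finite ℝ (finite_range A)
  have : IsClosed (E : Set V) := E.closed_of_finiteDimensional
  obtain ⟨n, hn⟩ : ∃ n, 1 / 4 ≤ ‖E.mkQ (u n)‖ := by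
    by_contra k
    push Not at k
    have : ∀ n, ∃ e : E, ‖(u n).1 - e‖ < 1 / 4 := fun n => by
      obtain ⟨m, m1, m2⟩ := Submodule.Quotient.norm_mk_lt (E.mkQ (u n)) (sub_pos.2 (k n))
      exact ⟨⟨u n - m, (Submodule.Quotient.eq E).1 m1.symm⟩, by simpa using m2⟩
    choose e he using this
    obtain ⟨a, -, φ, f1, f2⟩ := tendsto_subseq_of_bounded (Metric.isBounded_closedBall (x := (0 : E))
      (r := 3)) (x := e) fun n => by
        have : ‖(u n).1‖ ≤ 2 := u1 n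
        rw [mem_closedBall_zero_iff, ← Submodule.norm_coe]
        linarith [he n, norm_sub_norm_le (e n).1 (u n), norm_sub_rev (e n).1 (u n)]
    obtain ⟨N, hN⟩ := Metric.cauchySeq_iff.1 f2.cauchySeq (1 / 4) (by norm_num)
    have a1 : ‖(e (φ N)).1 - e (φ (N + 1))‖ < 1 / 4 := by
      simpa [dist_eq_norm, ← Submodule.norm_coe] using hN N le_rfl (N + 1) N.le_succ
    have a2 : 1 ≤ ‖(u (φ N)).1 - u (φ (N + 1))‖ := u2 (f1 N.lt_succ_self).ne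
    linarith [he (φ N), he (φ (N + 1)), norm_sub_rev (u (φ (N + 1))).1 (e (φ (N + 1))),
      norm_sub_le_norm_sub_add_norm_sub (u (φ N)).1 (e (φ N)) (u (φ (N + 1))),
      norm_sub_le_norm_sub_add_norm_sub (e (φ N)).1 (e (φ (N + 1))) (u (φ (N + 1)))]
  obtain ⟨g, g1, g2⟩ := exists_dual_vector'' ℝ (E.mkQ (u n))
  have p : 0 < ‖E.mkQ (u n)‖ := by linarith
  refine ⟨(u n, ‖E.mkQ (u n)‖⁻¹ • g.comp E.mkQL), u1 n, ContinuousLinearMap.opNorm_le_bound _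
    (by norm_num) fun x => ?_, ?_, fun i => ⟨?_, congrFun (u n).2 i⟩⟩
  · have := (g.le_opNorm (E.mkQ x)).trans ((mul_le_of_le_one_left (norm_nonneg _) g1).trans
      (Submodule.Quotient.norm_mk_le E x))
    show ‖‖E.mkQ (u n)‖⁻¹ * g (E.mkQ x)‖ ≤ _
    rw [norm_mul, norm_inv, norm_norm, inv_mul_le_iff₀ p]
    nlinarith [norm_nonneg x]
  · show ‖E.mkQ (u n)‖⁻¹ * g (E.mkQ (u n)) = 1
    rw [g2]
    exact inv_mul_cancel₀ p.ne'
  · show ‖E.mkQ (u n)‖⁻¹ * g (E.mkQ (A i)) = 0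
    rw [show E.mkQ (A i) = 0 from (Submodule.Quotient.mk_eq_zero E).2
      (hE ▸ Submodule.subset_span ⟨i, rfl⟩), map_zero, mul_zero]

theorem bio (W : Submodule ℝ V) (hW : IsClosed (W : Set V))
    (h : ∀ n : ℕ, ∃ φ : Fin n → V, ∀ c : Fin n → ℝ, ∑ i, c i • φ i ∈ W → c = 0) :
    ∃ (G : ℕ → V) (F : ℕ → V →L[ℝ] ℝ), (∀ i, ‖G i‖ ≤ 3 ∧ ‖F i‖ ≤ 4 ∧ ∀ w ∈ W, F i w = 0) ∧
      ∀ i j, F i (G j) = if i = j then 1 else 0 := by
  have i : ¬ FiniteDimensional ℝ (V ⧸ W) := fun k => by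
    obtain ⟨φ, hφ⟩ := h (Module.finrank ℝ (V ⧸ W) + 1)
    have := (Fintype.linearIndependent_iff.2 fun c hc => congrFun (hφ c
      ((Submodule.Quotient.mk_eq_zero W).1 (show W.mkQ _ = 0 by
        simpa only [map_sum, map_smul] using hc))) : LinearIndependent ℝ fun i => W.mkQ (φ i)).fintype_card_le_finrank
    simp at this
  obtain ⟨s, hs⟩ := rc (fun r s (p : (V ⧸ W) × ((V ⧸ W) →L[ℝ] ℝ)) => ‖p.1‖ ≤ 2 ∧ ‖p.2‖ ≤ 4 ∧
    p.2 p.1 = 1 ∧ ∀ i : Fin r, p.2 (s i).1 = 0 ∧ (s i).2 p.1 = 0) (fun r s => one i _ _)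
    fun r p q a e k => ⟨k.1, k.2.1, k.2.2.1, fun i => e i i.2 ▸ k.2.2.2 i⟩
  choose G g1 g2 using fun n => Submodule.Quotient.norm_mk_lt (s n).1 one_pos
  refine ⟨G, fun n => (s n).2.comp W.mkQL, fun n => ⟨by linarith [g2 n, (hs n).1],
    ContinuousLinearMap.opNorm_le_bound _ (by norm_num) fun x => ((s n).2.le_of_opNorm_le_of_le
      (hs n).2.1 (Submodule.Quotient.norm_mk_le W x)), fun w hw => ?_⟩, fun i j => ?_⟩
  · show (s n).2 (W.mkQ w) = 0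
    rw [show W.mkQ w = 0 from (Submodule.Quotient.mk_eq_zero W).2 hw, map_zero]
  · show (s i).2 (Submodule.Quotient.mk (G j)) = _
    rw [g1]
    rcases lt_trichotomy i j with k | rfl | k
    · rw [if_neg k.ne, ((hs j).2.2.2 ⟨i, k⟩).2]
    · rw [if_pos rfl, (hs i).2.2.1]
    · rw [if_neg k.ne', ((hs i).2.2.2 ⟨j, k⟩).1]

theorem hly (φ : (V →L[ℝ] ℝ) →L[ℝ] ℝ) {ι : Type} [Finite ι] (h : ι → V →L[ℝ] ℝ) :
    ∃ x : V, ‖x‖ ≤ ‖φ‖ + 1 ∧ ∀ i, h i x = φ (h i) := by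
  obtain ⟨N, hN⟩ : ∃ N, N = LinearMap.ker (ContinuousLinearMap.pi h).toLinearMap := ⟨_, rfl⟩
  have : IsClosed (N : Set V) := hN ▸ (ContinuousLinearMap.pi h).isClosed_ker
  have : FiniteDimensional ℝ (V ⧸ N) := FiniteDimensional.of_injective
    (N.liftQ (ContinuousLinearMap.pi h).toLinearMap hN.le)
    (LinearMap.ker_eq_bot.1 (N.ker_liftQ_eq_bot _ _ hN.ge))
  obtain ⟨q, hq⟩ := (Module.evalEquiv ℝ (V ⧸ N)).surjective
    ⟨⟨fun g => φ ((LinearMap.toContinuousLinearMap g).comp N.mkQL), fun a b => by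
      simp [ContinuousLinearMap.add_comp]⟩, fun c a => by simp [ContinuousLinearMap.smul_comp]⟩
  have k : ∀ g : (V ⧸ N) →L[ℝ] ℝ, g q = φ (g.comp N.mkQL) := fun g =>
    congrArg (fun c => c g.toLinearMap) hq
  obtain ⟨x, rfl, hx⟩ := Submodule.Quotient.norm_mk_lt q one_pos
  obtain ⟨g, g1, g2⟩ := exists_dual_vector'' ℝ (Submodule.Quotient.mk x : V ⧸ N)
  refine ⟨x, hx.le.trans (add_le_add (g2.symm.trans_le ((k g).trans_le ((le_abs_self _).trans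
    (φ.unit_le_opNorm _ (ContinuousLinearMap.opNorm_le_bound _ zero_le_one fun v =>
      g.le_of_opNorm_le_of_le g1 (Submodule.Quotient.norm_mk_le N v)))))) le_rfl), fun i => ?_⟩
  exact k (LinearMap.toContinuousLinearMap (N.liftQ (h i).toLinearMap fun v hv =>
    congrFun (hN ▸ hv : v ∈ LinearMap.ker (ContinuousLinearMap.pi h).toLinearMap) i))

theorem sys [CompleteSpace V] (h : ∀ n : ℕ, ∃ φ : Fin n → ((V →L[ℝ] ℝ) →L[ℝ] ℝ),
      ∀ (c : Fin n → ℝ) (x : V), (∀ f : V →L[ℝ] ℝ, ∑ i, c i * φ i f = f x) → c = 0) :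
    ∃ (x : ℕ → ℕ → V) (f : ℕ → ℕ → V →L[ℝ] ℝ), (∀ σ m, ‖x σ m‖ ≤ 8 ∧ ‖f σ m‖ ≤ 10) ∧
      (∀ τ l σ m, f τ l (x σ m) = if τ = σ ∧ l ≤ m then 1 else 0) ∧
      ∀ σ v, Tendsto (fun k => f σ k v) (hyperfilter ℕ) (𝓝 0) := by
  obtain ⟨J, hJ⟩ : ∃ J : V →ₗᵢ[ℝ] ((V →L[ℝ] ℝ) →L[ℝ] ℝ), ∀ x f, J x f = f x :=
    ⟨NormedSpace.inclusionInDoubleDualLi ℝ, fun _ _ => rfl⟩
  obtain ⟨G, F, g1, g2⟩ := bio (V := (V →L[ℝ] ℝ) →L[ℝ] ℝ) (LinearMap.range J.toLinearMap)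
    (by exact J.isometry.isUniformInducing.isComplete_range.isClosed) fun n => (h n).imp
      fun φ k c ⟨x, hx⟩ => k c x fun f => by simpa [hJ] using (congrArg (fun a => a f) hx).symm
  have g3 : ∀ i x, F i (J x) = 0 := fun i x => (g1 i).2.2 _ ⟨x, rfl⟩
  obtain ⟨s, hs⟩ := rc (fun r s (p : V × (V →L[ℝ] ℝ) × V) => (‖p.2.1‖ ≤ 5 ∧ ‖p.2.2‖ ≤ 8) ∧
      (‖p.1‖ ≤ 4 ∧ ∀ i < r, (s i).2.1 p.1 = G r (s i).2.1 ∧ p.2.1 (s i).2.2 = 0) ∧
      ∀ q : ℕ → V × (V →L[ℝ] ℝ) × V, (∀ i < r, q i = s i) → q r = p → ‖(q r.unpair.1).1‖ ≤ 4 →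
        ∀ i ≤ r, G i p.2.1 - p.2.1 (q i).1 = (if r.unpair.1 = i then 1 else 0) ∧
        (q i).2.1 p.2.2 = G r.unpair.1 (q i).2.1 - (q i).2.1 (q r.unpair.1).1)
    (fun r s => by
      obtain ⟨y, y1, y2⟩ := hly (G r) fun i : Fin r => (s i).2.1
      obtain ⟨Y, hY⟩ : ∃ Y : ℕ → V, ∀ i, Y i = if i < r then (s i).1 else y := ⟨_, fun _ => rfl⟩
      obtain ⟨f, f1, f2⟩ := hly (F r.unpair.1) (ι := Fin r ⊕ Fin (r + 1))
        (Sum.elim (fun i => J (s i).2.2) fun i => G i - J (Y i))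
      obtain ⟨x, x1, x2⟩ := hly (if ‖Y r.unpair.1‖ ≤ 4 then G r.unpair.1 - J (Y r.unpair.1) else 0)
        fun i : Fin (r + 1) => if i < r then (s i).2.1 else f
      refine ⟨(y, f, x), ⟨by linarith [(g1 r.unpair.1).2.1], x1.trans ?_⟩,
        ⟨by linarith [(g1 r).1], fun i hi => ⟨y2 ⟨i, hi⟩, by simpa [hJ, g3] using f2 (.inl ⟨i, hi⟩)⟩⟩,
        fun q q1 q2 q3 i hi => ?_⟩
      · split_ifs with k
        · linarith [norm_sub_le (G r.unpair.1) (J (Y r.unpair.1)), (g1 r.unpair.1).1,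
            J.norm_map (Y r.unpair.1)]
        · rw [ContinuousLinearMap.opNorm_zero]
          norm_num
      have e : ∀ i ≤ r, Y i = (q i).1 ∧ (if i < r then (s i).2.1 else f) = (q i).2.1 := fun i hi => by
        rcases hi.lt_or_eq with k | rfl
        · simp [hY, k, q1 i k]
        · simp [hY, q2]
      rw [(e _ r.unpair_left_le).1, if_pos q3] at x2
      exact ⟨by simpa [hJ, g3, g2, (e i hi).1] using f2 (.inr ⟨i, Nat.lt_succ_of_le hi⟩),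
        by simpa [hJ, (e i hi).2] using x2 ⟨i, Nat.lt_succ_of_le hi⟩⟩)
    fun r p q a e k => ⟨k.1, ⟨k.2.1.1, fun i hi => e i hi ▸ k.2.1.2 i hi⟩,
      fun t t1 => k.2.2 t fun i hi => (t1 i hi).trans (e i hi).symm⟩
  have k := fun r => (hs r).2.2 s (fun _ _ => rfl) rfl (hs _).2.1.1
  have p : ∀ i r, (s i).2.1 (s r).2.2 = if i.unpair.1 = r.unpair.1 ∧ i ≤ r then 1 else 0 :=
    fun i r => by
      rcases le_or_gt i r with a | a
      · rw [(k r i a).2]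
        rcases le_or_gt r.unpair.1 i with b | b
        · simp [(k i _ b).1, a]
        · rw [((hs _).2.1.2 i b).1, sub_self, if_neg fun c => (c.1 ▸ b).not_ge i.unpair_left_le]
      · rw [((hs i).2.1.2 r a).2, if_neg fun c => a.not_ge c.2]
  choose φ f1 f2 using fun σ => MP_35c8d5.ulim (hyperfilter ℕ) (fun k => (s (Nat.pair σ k)).2.1)
    (R := 5) (by norm_num) (.of_forall fun k => (hs _).1.1)
  refine ⟨fun σ m => (s (Nat.pair σ m)).2.2, fun σ k => (s (Nat.pair σ k)).2.1 - φ σ, fun σ m =>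
    ⟨(hs _).1.2, (norm_sub_le _ _).trans (by linarith [(hs (Nat.pair σ m)).1.1, f1 σ])⟩,
    fun τ l σ m => ?_, fun σ v => by simpa using (f2 σ v).sub_const (φ σ v)⟩
  have : φ τ (s (Nat.pair σ m)).2.2 = 0 := tendsto_nhds_unique (f2 τ _)
    (tendsto_const_nhds.congr' (Nat.hyperfilter_le_atTop ((eventually_gt_atTop (Nat.pair σ m)).mono
      fun k hk => ((p _ _).trans
        (if_neg fun c => (hk.trans_le (Nat.right_le_pair τ k)).not_ge c.2)).symm)))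
  rw [_root_.sub_apply, this, sub_zero, p]
  refine if_congr ?_ rfl rfl
  simp only [Nat.unpair_pair]
  refine and_congr_right fun c => c ▸ ?_
  exact (show StrictMono (Nat.pair τ) from fun _ _ => Nat.pair_lt_pair_right τ).le_iff_le

end Pool.Agent.H.MP_a66ead
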