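import Pool.Agent.H.MP_a66ead.A

namespace Pool.Agent.H.MP_a66ead

open Filter Topology Set Finset

theorem uno (v : ℕ → ℝ) (E : ℕ → Prop) (h : ∀ j, E (j + 1) → E j) (v1 : ∀ j, |v j| ≤ 1)
    (v2 : ∀ j, v j ≠ 0 → E j ∧ ¬ E (j + 1)) (k : ℕ) : |∑ j ∈ range k, v j| ≤ 1 := by
  have d : ∀ k, E k → ∀ j ≤ k, E j := fun k a j b => Nat.decreasingInduction (fun j _ => h j) a b
  by_cases e : ∃ j ∈ range k, v j ≠ 0
  · obtain ⟨j, a, b⟩ := e
    rw [sum_eq_single_of_mem j a fun i _ c => by_contra fun l => c.lt_or_gt.elim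
      (fun m => (v2 i l).2 (d j (v2 j b).1 _ m)) fun m => (v2 j b).2 (d i (v2 i l).1 _ m)]
    exact v1 j
  · push Not at e
    simp [sum_eq_zero e]

variable {X : Type} [NormedAddCommGroup X] [NormedSpace ℝ X]

theorem tre {Λ : Type} [DecidableEq Λ] (x : Λ → ℕ → X) (f : Λ → ℕ → X →L[ℝ] ℝ)
    (b : ∀ σ m, ‖x σ m‖ ≤ 8 ∧ ‖f σ m‖ ≤ 10)
    (e : ∀ τ l σ m, f τ l (x σ m) = if τ = σ ∧ l ≤ m then 1 else 0)
    (z : ∀ σ v, Tendsto (fun k => f σ k v) (hyperfilter ℕ) (𝓝 0)) (ν : List (Option ℕ) → Λ)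
    (hν : ν.Injective) (l : ℝ) :
    ∃ N : Seminorm ℝ X,
      (∃ a b : ℝ, 0 < a ∧ 0 < b ∧ ∀ x : X, a * ‖x‖ ≤ N x ∧ N x ≤ b * ‖x‖) ∧
      ∀ (Z : Type) [NormedAddCommGroup Z] [NormedSpace ℝ Z]
        (T : X ≃ₗ[ℝ] (Z →L[ℝ] ℝ)) (a b : ℝ),
        (∀ x : X, ‖T x‖ ≤ a * N x) → (∀ x : X, N x ≤ b * ‖T x‖) → l ≤ a * b := by
  obtain ⟨n, hn⟩ := exists_nat_gt (4 * |l|)
  have n1 : (0 : ℝ) < n := lt_of_le_of_lt (by positivity) hn
  obtain ⟨D, D0, D1⟩ : ∃ D : List (Option ℕ) → Option ℕ → X →L[ℝ] ℝ, (∀ t, D t none = 0) ∧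
    ∀ t k, D t (some k) = f (ν t) (k + 1) := ⟨fun t o => o.elim 0 fun k => f (ν t) (k + 1),
      fun _ => rfl, fun _ _ => rfl⟩
  obtain ⟨H, H0, H1⟩ : ∃ H : X → List (Option ℕ) → Option ℕ → X, (∀ y t, H y t none = y) ∧
    ∀ y t k, H y t (some k) = x (ν t) (k + 1) - x (ν t) k - y :=
    ⟨fun y t o => o.elim y fun k => x (ν t) (k + 1) - x (ν t) k - y, fun _ _ => rfl,
      fun _ _ _ => rfl⟩
  obtain ⟨S, S0, S1⟩ : ∃ S : (ℕ → Option ℕ) → ℕ → List (Option ℕ), (∀ a, S a 0 = []) ∧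
    ∀ a j, S a (j + 1) = a j :: S a j :=
    ⟨fun a j => Nat.rec (motive := fun _ => List (Option ℕ)) [] (fun j t => a j :: t) j,
      fun _ => rfl, fun _ _ => rfl⟩
  have S2 : ∀ a j, (S a j).length = j := fun a j => by
    induction j with
    | zero => simp [S0]
    | succ j ih => simp [S1, ih]
  have c1 : ∀ t o y, ‖D t o y‖ ≤ 10 * ‖y‖ := fun t o y => by
    rcases o with _ | k
    · simp [D0]
    · exact D1 t k ▸ (f _ _).le_of_opNorm_le (b _ _).2 y
  have c2 : ∀ t k u m, f (ν t) k (x (ν u) m) = if t = u ∧ k ≤ m then 1 else 0 := fun t k u m => by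
    simp [e, hν.eq_iff]
  have v0 : ∀ t o u r m, t ≠ u → D t o (H (x (ν u) m) u r) = 0 := fun t o u r m h => by
    rcases o with _ | o <;> rcases r with _ | r <;> simp [D0, D1, H0, H1, c2, h]
  have v1 : ∀ t o r m, |D t o (H (x (ν t) m) t r)| ≤ 1 := fun t o r m => by
    rcases o with _ | o <;> rcases r with _ | r <;>
      simp only [D0, D1, H0, H1, map_sub, c2, _root_.zero_apply, true_and]
    · simp
    · simp
    · split_ifs <;> simp
    · split_ifs <;> first | omega | norm_num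
  have v2 : ∀ t o m, o.getD 0 < m → D t o (H (x (ν t) m) t o) = 0 := fun t o m h => by
    rcases o with _ | o
    · simp [D0]
    · simp [D1, H1, c2, show o < m from h]
  obtain ⟨Y, _, _, E, e1, e2⟩ := MP_11e589.ren (fun p : (ℕ → Option ℕ) × Fin (n + 1) =>
      ((24 * n : ℝ)⁻¹ • ContinuousLinearMap.id ℝ X).prod
        (∑ j ∈ range p.2, D (S p.1 j) (p.1 j))) (C := (24 * n : ℝ)⁻¹ + 10 * n) (c := 24 * n)
    (by positivity) (by positivity) (fun p y => by
      rw [ContinuousLinearMap.prod_apply, Prod.norm_mk, add_mul]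
      refine max_le_add_of_nonneg (by positivity) (by positivity) |>.trans (add_le_add ?_ ?_)
      · exact (norm_smul _ y).trans_le (by rw [Real.norm_of_nonneg (by positivity)])
      · rw [_root_.sum_apply]
        refine (norm_sum_le_of_le _ fun j _ => c1 _ _ y).trans ?_
        have : (p.2 : ℝ) ≤ n := by exact_mod_cast p.2.is_le
        simp
        nlinarith [norm_nonneg y]) (fun _ => none, 0) fun y => by
      simp [norm_smul, mul_max_of_nonneg, n1.ne', ← mul_assoc]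
  have e3 : ∀ a y, |(∑ j ∈ range n, D (S a j) (a j)) y| ≤ ‖E y‖ := fun a y =>
    le_trans (le_max_right _ _) (e1 (a, Fin.last n) y)
  refine ⟨(normSeminorm ℝ Y).comp E.toLinearMap, ⟨(‖(E.symm : Y →L[ℝ] X)‖ + 1)⁻¹,
    ‖(E : X →L[ℝ] Y)‖ + 1, by positivity, by positivity, fun y => ⟨?_, ?_⟩⟩,
    fun Z _ _ T α β t1 t2 => ?_⟩
  · show _ ≤ ‖E y‖
    rw [inv_mul_le_iff₀ (by positivity)]
    have := (E.symm : Y →L[ℝ] X).le_opNorm (E y)
    simp at this
    nlinarith [norm_nonneg (E y)]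
  · show ‖E y‖ ≤ _
    nlinarith [(E : X →L[ℝ] Y).le_opNorm y, norm_nonneg y, show ‖(E : X →L[ℝ] Y) y‖ = ‖E y‖ from rfl]
  change ∀ y, ‖T y‖ ≤ α * ‖E y‖ at t1
  change ∀ y, ‖E y‖ ≤ β * ‖T y‖ at t2
  have x0 : 0 < ‖E (x (ν []) 0)‖ := norm_pos_iff.2 (E.map_eq_zero_iff.not.2 fun h => by
    simpa [h] using e (ν []) 0 (ν []) 0)
  have α0 : 0 ≤ α := nonneg_of_mul_nonneg_left ((norm_nonneg _).trans (t1 _)) x0
  have β0 : 0 ≤ β := not_lt.1 fun h => (x0.trans_le (t2 _)).not_ge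
    (mul_nonpos_of_nonpos_of_nonneg h.le (norm_nonneg _))
  choose q _ q2 using fun t => MP_35c8d5.ulim (hyperfilter ℕ) (fun m => T (x (ν t) m))
    (R := α * (‖(E : X →L[ℝ] Y)‖ * 8)) (by positivity) (.of_forall fun m => (t1 _).trans
      (mul_le_mul_of_nonneg_left ((E : X →L[ℝ] Y).le_of_opNorm_le_of_le le_rfl (b _ _).1) α0))
  obtain ⟨δ, δ0, δ1⟩ : ∃ δ : List (Option ℕ) → X →L[ℝ] ℝ, δ [] = 0 ∧
    ∀ o t, δ (o :: t) = δ t + D t o :=
    ⟨fun t => List.rec 0 (fun o t r => r + D t o) t, rfl, fun _ _ => rfl⟩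
  have : ∀ t, ∃ o, (∀ u ∈ t.tails, |D t o (T.symm (q u))| ≤ 1 / (4 * n)) ∧
      (o = none ∧ 1 / 2 ≤ δ t (T.symm (q t)) ∨ ∃ k, o = some k ∧ δ t (T.symm (q t)) ≤ 1 / 2) :=
    fun t => by
      rcases le_total (1 / 2) (δ t (T.symm (q t))) with h | h
      · exact ⟨none, fun u _ => by simp [D0], .inl ⟨rfl, h⟩⟩
      · obtain ⟨k, hk⟩ := (((eventually_all_finite t.tails.finite_toSet).2 fun u _ =>
          (z (ν t) (T.symm (q u))).abs.eventually (ge_mem_nhds
            (show |0| < 1 / (4 * n : ℝ) by rw [abs_zero]; positivity))).and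
          (Nat.hyperfilter_le_atTop (eventually_gt_atTop 0))).exists
        obtain ⟨k, rfl⟩ := Nat.exists_eq_succ_of_ne_zero hk.2.ne'
        exact ⟨some k, D1 t k ▸ hk.1, .inr ⟨k, rfl, h⟩⟩
  choose ch h1 h2 using this
  obtain ⟨a, ha⟩ : ∃ a : ℕ → Option ℕ, ∀ j, a j = ch (S a j) := by
    refine ⟨fun j => ch ((fun t => ch t :: t)^[j] []), fun j => congrArg ch ?_⟩
    induction j with
    | zero => simp [S0]
    | succ j ih => rw [S1, ← ih, Function.iterate_succ_apply']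
  have k1 : ∀ᶠ m in hyperfilter ℕ, ‖E (∑ j ∈ range n, H (x (ν (S a j)) m) (S a j) (a j))‖ ≤ 1 := by
    refine Nat.hyperfilter_le_atTop (((eventually_all_finset (range n)).2 fun j _ =>
      eventually_gt_atTop ((a j).getD 0)).mono fun m hm => e2 _ _ zero_le_one fun p => max_le ?_ ?_)
    · show ‖(24 * n : ℝ)⁻¹ • ∑ j ∈ range n, H (x (ν (S a j)) m) (S a j) (a j)‖ ≤ 1
      rw [norm_smul, Real.norm_of_nonneg (by positivity), inv_mul_le_iff₀ (by positivity)]
      refine (norm_sum_le_of_le _ (n := fun _ => 24) fun j _ => ?_).trans_eq (by simp [mul_comm])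
      rcases a j with _ | k
      · linarith [(b (ν (S a j)) m).1, congrArg norm (H0 (x (ν (S a j)) m) (S a j))]
      · rw [H1]
        linarith [(b (ν (S a j)) m).1, (b (ν (S a j)) k).1, (b (ν (S a j)) (k + 1)).1,
          norm_sub_le (x (ν (S a j)) (k + 1) - x (ν (S a j)) k) (x (ν (S a j)) m),
          norm_sub_le (x (ν (S a j)) (k + 1)) (x (ν (S a j)) k)]
    · show |(∑ j ∈ range p.2, D (S p.1 j) (p.1 j)) _| ≤ 1
      rw [_root_.sum_apply, sum_congr rfl fun i hi => (?_ : _ = if i < n then D (S p.1 i) (p.1 i)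
        (H (x (ν (S a i)) m) (S a i) (a i)) else 0)]
      · refine uno _ (fun j => S p.1 j = S a j) (fun j h => by
          rw [S1, S1] at h; exact (List.cons.inj h).2) (fun j => ?_) (fun j h => ?_) _
        · by_cases c : S p.1 j = S a j
          · split_ifs
            · exact c ▸ v1 _ _ _ _
            · simp
          · simp [v0 _ _ _ _ _ c]
        · have c : j < n := by_contra fun c => h (if_neg c)
          rw [if_pos c] at h
          refine ⟨by_contra fun c => h (v0 _ _ _ _ _ c), fun d => h ?_⟩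
          rw [S1, S1] at d
          rw [(List.cons.inj d).1, (List.cons.inj d).2]
          exact v2 _ _ _ (hm j (mem_range.2 c))
      · have hi : i < n := (mem_range.1 hi).trans_le p.2.is_le
        rw [if_pos hi, map_sum, sum_eq_single_of_mem i (mem_range.2 hi) fun j _ h => v0 _ _ _ _ _
          fun c => h (by simpa [S2] using (congrArg List.length c).symm)]
  have k2 : ‖T (∑ j ∈ range n, H (T.symm (q (S a j))) (S a j) (a j))‖ ≤ α :=
    ContinuousLinearMap.opNorm_le_bound _ α0 fun v => by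
      refine le_of_tendsto (f := fun m => ‖T (∑ j ∈ range n, H (x (ν (S a j)) m) (S a j) (a j)) v‖)
        (Tendsto.norm ?_) (k1.mono fun m hm => ContinuousLinearMap.le_of_opNorm_le _
          ((t1 _).trans (mul_le_of_le_one_right α0 hm)) v)
      simp only [map_sum, _root_.sum_apply]
      refine tendsto_finsetSum _ fun j _ => ?_
      rcases a j with _ | k
      · simpa [H0] using q2 _ v
      · simpa [H1] using (q2 _ v).const_sub _
  have k3 : ∀ j m, j ≤ m → S a j ∈ (S a m).tails := fun j m h => by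
    induction m, h using Nat.le_induction with
    | base => simp
    | succ m _ ih => rw [S1, List.tails_cons]; exact .tail _ ih
  have k4 : ∀ m, δ (S a m) = ∑ j ∈ range m, D (S a j) (a j) := fun m => by
    induction m with
    | zero => simp [S0, δ0]
    | succ m ih => rw [S1, δ1, ih, sum_range_succ]
  have k5 : ∀ j ∈ range n, 1 / 4 ≤ (∑ i ∈ range n, D (S a i) (a i))
      (H (T.symm (q (S a j))) (S a j) (a j)) := fun j hj => by
    have hj := mem_range.1 hj
    have a1 : |(∑ i ∈ range n, D (S a i) (a i)) (T.symm (q (S a j))) -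
        δ (S a j) (T.symm (q (S a j)))| ≤ 1 / 4 := by
      rw [k4, ← sum_range_add_sum_Ico _ hj.le, _root_.add_apply, add_sub_cancel_left,
        _root_.sum_apply]
      refine (abs_sum_le_sum_abs _ _).trans ((sum_le_sum (g := fun _ => 1 / (4 * n : ℝ))
        fun i hi => ha i ▸ h1 _ _ (k3 j i (mem_Ico.1 hi).1)).trans ?_)
      have : ((n - j : ℕ) : ℝ) ≤ n := by exact_mod_cast n.sub_le j
      rw [sum_const, Nat.card_Ico, nsmul_eq_mul, mul_one_div, div_le_iff₀ (by positivity)]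
      linarith
    rcases ha j ▸ h2 (S a j) with ⟨c, d⟩ | ⟨k, c, d⟩
    · rw [c, H0]
      linarith [(abs_le.1 a1).1]
    · have : (∑ i ∈ range n, D (S a i) (a i)) (x (ν (S a j)) (k + 1) - x (ν (S a j)) k) = 1 := by
        rw [_root_.sum_apply, sum_eq_single_of_mem j (mem_range.2 hj) fun i _ h => ?_]
        · simp [c, D1, c2]
        · have : S a i ≠ S a j := fun c => h (by simpa [S2] using congrArg List.length c)
          rcases a i with _ | r <;> simp [D0, D1, c2, this]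
      rw [c, H1, map_sub, this]
      linarith [(abs_le.1 a1).2]
  have k6 := (sum_le_sum k5).trans ((map_sum _ _ _).symm.trans_le ((le_abs_self _).trans
    ((e3 a _).trans ((t2 _).trans (mul_le_mul_of_nonneg_left k2 β0)))))
  simp only [sum_const, card_range, nsmul_eq_mul] at k6
  linarith [le_abs_self l, mul_comm α β]

theorem main [CompleteSpace X] (h : ∀ n : ℕ, ∃ φ : Fin n → ((X →L[ℝ] ℝ) →L[ℝ] ℝ),
      ∀ (c : Fin n → ℝ) (x : X), (∀ f : X →L[ℝ] ℝ, ∑ i, c i * φ i f = f x) → c = 0) (l : ℝ) :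
    ∃ N : Seminorm ℝ X,
      (∃ a b : ℝ, 0 < a ∧ 0 < b ∧ ∀ x : X, a * ‖x‖ ≤ N x ∧ N x ≤ b * ‖x‖) ∧
      ∀ (Z : Type) [NormedAddCommGroup Z] [NormedSpace ℝ Z]
        (T : X ≃ₗ[ℝ] (Z →L[ℝ] ℝ)) (a b : ℝ),
        (∀ x : X, ‖T x‖ ≤ a * N x) → (∀ x : X, N x ≤ b * ‖T x‖) → l ≤ a * b := by
  obtain ⟨x, f, h1, h2, h3⟩ := sys h
  exact tre x f h1 h2 h3 _ Encodable.encode_injective l

end Pool.Agent.H.MP_a66ead
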